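import Mathlib
import Pool.Agent.Zk44.GE.OdeCount

/-!
# Constants for which two combinations satisfy differential equations
-/

set_option autoImplicit false

namespace Pool.Agent.Zk44.SC

open MvPolynomial
open Pool.Agent.R351
open Pool.Agent.Zk44.GE.Ode

section Basic

theorem InP.ren {C R : Type*} [Field C] [CommRing R] [Algebra C R] {v w : ℕ → R} {n n' T : ℕ}
    {f : R} (ρ : ℕ → ℕ) (h1 : ∀ i < n, v i = w (ρ i)) (h2 : ∀ i < n, ρ i < n')
    (h : InP C v n T f) : InP C w n' T f := by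
  have h3 := InP.subst (s := (1 : R)) (w := w) (n := n') (a := 0) (D := 1)
    (InP.one.mono le_rfl (Nat.zero_le 1)) (fun i hi => by
      rw [one_pow, one_mul, h1 i hi]
      exact InP.var (h2 i hi)) h
  rw [one_pow, one_mul] at h3
  exact h3.mono le_rfl (by simp)

variable {κ C : Type} [Field κ] [Field C] [Algebra κ C]

theorem dit_succ' (Δ : Derivation κ C C) (c : ℕ) (z : C) : dit Δ (c + 1) z = dit Δ c (Δ z) := by
  unfold dit
  rw [Function.iterate_succ_apply]

/-- the derivatives of a product with a fixed number -/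
theorem mul_InP {B : Type} (Δ : Derivation κ C C) (i : ℕ) : ∀ (θ : C) (W : B → C),
    InP C (fun j (b : B) => dit Δ j (W b)) (i + 1) 1 (fun b => dit Δ i (θ * W b)) := by
  induction i with
  | zero =>
    intro θ W
    have h1 : (fun b => dit Δ 0 (θ * W b)) = θ • (fun j (b : B) => dit Δ j (W b)) 0 := by
      funext b
      simp [dit_zero]
    rw [h1]
    exact (InP.var (Nat.succ_pos 0)).smul θ
  | succ i ih =>
    intro θ W
    have h1 : (fun b => dit Δ (i + 1) (θ * W b)) = (fun b => dit Δ i (θ * Δ (W b))) +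
        (fun b => dit Δ i (Δ θ * W b)) := by
      funext b
      rw [dit_succ', Derivation.leibniz, Pi.add_apply, ← dit_add]
      congr 1
      simp only [smul_eq_mul]
      ring
    rw [h1]
    refine InP.add ?_ ((ih (Δ θ) W).mono (Nat.le_succ _) le_rfl)
    refine InP.ren Nat.succ (fun j _ => ?_) (fun j hj => Nat.succ_lt_succ hj) (ih θ (fun b => Δ (W b)))
    funext b
    exact (dit_succ' Δ j (W b)).symm

/-- A combination of the two families is independent over the constants. -/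
theorem exists_theta [Countable κ] [Uncountable C] {N : ℕ} (x l : Fin N → C)
    (h : ∀ c : Fin N → κ, ∑ j, c j • x j = 0 → ∑ j, c j • l j = 0 → c = 0) :
    ∃ θ : C, LinearIndependent κ (fun j => x j + θ * l j) := by
  classical
  have hc : (Set.range fun c : Fin N → κ => -(∑ j, c j • x j) / (∑ j, c j • l j)).Countable :=
    Set.countable_range _
  obtain ⟨θ, hθ⟩ : ∃ θ : C, θ ∉ Set.range fun c : Fin N → κ =>
      -(∑ j, c j • x j) / (∑ j, c j • l j) := by
    by_contra hcon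
    push Not at hcon
    have h1 : (Set.univ : Set C).Countable := hc.mono fun θ _ => hcon θ
    rw [Set.countable_univ_iff] at h1
    exact not_countable_iff.2 inferInstance h1
  refine ⟨θ, ?_⟩
  rw [Fintype.linearIndependent_iff]
  intro c hc0
  have h1 : ∑ j, c j • x j + θ * ∑ j, c j • l j = 0 := by
    rw [← hc0, Finset.mul_sum, ← Finset.sum_add_distrib]
    refine Finset.sum_congr rfl fun j _ => ?_
    rw [smul_add, mul_smul_comm]
  have h2 : c = 0 := by
    by_cases h3 : ∑ j, c j • l j = 0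
    · rw [h3, mul_zero, add_zero] at h1
      exact h c h1 h3
    · exfalso
      apply hθ
      refine ⟨c, ?_⟩
      show -(∑ j, c j • x j) / (∑ j, c j • l j) = θ
      rw [div_eq_iff h3]
      linear_combination -h1
  intro j
  rw [h2]
  rfl

/-- the jets of the two families -/
noncomputable def vv {N : ℕ} (Δ : Derivation κ C C) (x l : Fin N → C) (z₀ l₀ : C)
    (B : Finset (Fin N → κ)) (i : ℕ) : B → C :=
  if i % 2 = 0 then vj Δ x z₀ B (i / 2) else vj Δ l l₀ B (i / 2)

theorem vv_even {N : ℕ} (Δ : Derivation κ C C) (x l : Fin N → C) (z₀ l₀ : C)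
    (B : Finset (Fin N → κ)) (i : ℕ) : vj Δ x z₀ B i = vv Δ x l z₀ l₀ B (2 * i) := by
  unfold vv
  rw [if_pos (by omega), show 2 * i / 2 = i by omega]

theorem vv_odd {N : ℕ} (Δ : Derivation κ C C) (x l : Fin N → C) (z₀ l₀ : C)
    (B : Finset (Fin N → κ)) (i : ℕ) : vj Δ l l₀ B i = vv Δ x l z₀ l₀ B (2 * i + 1) := by
  unfold vv
  rw [if_neg (by omega), show (2 * i + 1) / 2 = i by omega]

theorem coord_joint [Countable κ] [Uncountable C] {N : ℕ} (Δ : Derivation κ C C)
    (hΔ : ∀ z, Δ z = 0 → ∃ a : κ, algebraMap κ C a = z) (x l : Fin N → C)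
    (hxl : ∀ c : Fin N → κ, ∑ j, c j • x j = 0 → ∑ j, c j • l j = 0 → c = 0) (z₀ l₀ : C)
    (B : Finset (Fin N → κ)) (k : Fin N) :
    InP C (vv Δ x l z₀ l₀ B) (2 * N) 1 (fun b => algebraMap κ C (b.1 k)) := by
  obtain ⟨θ, hθ⟩ := exists_theta x l hxl
  have h1 := coord_InP Δ hΔ (fun j => x j + θ * l j) hθ (z₀ + θ * l₀) B k
  have h2 : ∀ i < N, InP C (vv Δ x l z₀ l₀ B) (2 * N) 1
      ((1 : B → C) ^ 0 * vj Δ (fun j => x j + θ * l j) (z₀ + θ * l₀) B i) := by
    intro i hi
    have e1 : vj Δ (fun j => x j + θ * l j) (z₀ + θ * l₀) B i = vj Δ x z₀ B i +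
        (fun b : B => dit Δ i (θ * cb l l₀ b.1)) := by
      funext b
      rw [Pi.add_apply]
      unfold vj
      rw [← dit_add]
      congr 1
      unfold cb
      rw [mul_add, Finset.mul_sum]
      have e2 : ∑ k, b.1 k • (x k + θ * l k) = ∑ k, b.1 k • x k + ∑ k, θ * b.1 k • l k := by
        rw [← Finset.sum_add_distrib]
        refine Finset.sum_congr rfl fun k _ => ?_
        rw [smul_add, mul_smul_comm]
      rw [e2]
      ring
    rw [pow_zero, one_mul, e1]
    refine InP.add ?_ ?_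
    · rw [vv_even Δ x l z₀ l₀ B i]
      exact InP.var (by omega)
    · refine InP.ren (fun j => 2 * j + 1) (fun j _ => ?_) (fun j hj => ?_)
        (mul_InP Δ i θ (fun b : B => cb l l₀ b.1))
      · exact vv_odd Δ x l z₀ l₀ B j
      · omega
  have h3 := InP.subst (InP.one.mono le_rfl (Nat.zero_le 1)) h2 h1
  rw [one_pow, one_mul] at h3
  exact h3.mono le_rfl (by simp)

/-- **The points at which the two separants do not vanish.** -/
theorem step_joint (n₁ n₂ d N : ℕ) : ∃ c : ℕ, ∀ (κ C : Type) [Field κ] [Field C] [Algebra κ C]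
    [Countable κ] [Uncountable C]
    (Δ : Derivation κ C C), (∀ z, Δ z = 0 → ∃ a : κ, algebraMap κ C a = z) →
    ∀ x l : Fin N → C, (∀ c : Fin N → κ, ∑ j, c j • x j = 0 → ∑ j, c j • l j = 0 → c = 0) →
    ∀ (z₀ l₀ : C) (A : Finset κ) (B : Finset (Fin N → κ)), (∀ b ∈ B, ∀ k, b k ∈ A) →
    ∀ F G : MvPolynomial ℕ C, F ∈ supported C {i : ℕ | i < n₁ + 1} →
    G ∈ supported C {i : ℕ | i < n₂ + 1} → F.totalDegree ≤ d → G.totalDegree ≤ d →
    (∀ b ∈ B, ev Δ (cb x z₀ b) F = 0) → (∀ b ∈ B, ev Δ (cb l l₀ b) G = 0) →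
    (∀ b ∈ B, ev Δ (cb x z₀ b) (pderiv n₁ F) ≠ 0) →
    (∀ b ∈ B, ev Δ (cb l l₀ b) (pderiv n₂ G) ≠ 0) →
    B.card ≤ (c * A.card + 1) ^ (2 * (n₁ + n₂ + 1)) := by
  obtain ⟨a₁, D₁, H₁⟩ := jets_InP n₁ d N
  obtain ⟨a₂, D₂, H₂⟩ := jets_InP n₂ d N
  set D := D₁ + D₂ + (a₂ + (a₁ + a₂)) * (D₁ + D₂) + D₁ + D₂ with hD
  refine ⟨(a₁ + a₂ + 1) * D * N, fun κ C _ _ _ _ _ Δ hΔ x l hxl z₀ l₀ A B hA F G hF hG hFd hGd hF0
    hG0 hFS hGS => ?_⟩
  classical
  obtain ⟨h1, h2⟩ := H₁ κ C Δ N x z₀ B F hF hFd hF0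
  obtain ⟨k1, k2⟩ := H₂ κ C Δ N l l₀ B G hG hGd hG0
  set v := vv Δ x l z₀ l₀ B with hv
  set S₁ := aeval (vj Δ x z₀ B) (pderiv n₁ F) with hS₁
  set S₂ := aeval (vj Δ l l₀ B) (pderiv n₂ G) with hS₂
  set n' := 2 * (n₁ + n₂ + 1) with hn'
  have tr1 : ∀ {T : ℕ} {f : B → C}, InP C (vj Δ x z₀ B) (n₁ + 1) T f → InP C v n' T f := by
    intro T f h
    exact InP.ren (fun j => 2 * j) (fun j _ => vv_even Δ x l z₀ l₀ B j)
      (fun j hj => by show 2 * j < n'; omega) h
  have tr2 : ∀ {T : ℕ} {f : B → C}, InP C (vj Δ l l₀ B) (n₂ + 1) T f → InP C v n' T f := by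
    intro T f h
    exact InP.ren (fun j => 2 * j + 1) (fun j _ => vv_odd Δ x l z₀ l₀ B j)
      (fun j hj => by show 2 * j + 1 < n'; omega) h
  have hS₁0 : ∀ b : B, S₁ b ≠ 0 := by
    intro b
    rw [hS₁, aeval_vj]
    exact hFS b.1 b.2
  have hS₂0 : ∀ b : B, S₂ b ≠ 0 := by
    intro b
    rw [hS₂, aeval_vj]
    exact hGS b.1 b.2
  set S := S₁ * S₂ with hS
  have hS0 : ∀ b : B, S b ≠ 0 := fun b => mul_ne_zero (hS₁0 b) (hS₂0 b)
  have hSP : InP C v n' D S := ((tr1 h1).mul (tr2 k1)).mono le_rfl (by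
    rw [hD]; nlinarith [Nat.zero_le ((a₂ + (a₁ + a₂)) * (D₁ + D₂))])
  have hSv : ∀ i < 2 * N, InP C v n' D (S ^ (a₁ + a₂) * v i) := by
    intro i hi
    rcases Nat.even_or_odd' i with ⟨j, rfl | rfl⟩
    · have e1 : S ^ (a₁ + a₂) * v (2 * j) = S₁ ^ a₂ * (S₂ ^ (a₁ + a₂) * (S₁ ^ a₁ * vj Δ x z₀ B j)) := by
        rw [hv, ← vv_even Δ x l z₀ l₀ B j, hS, mul_pow, pow_add S₁]
        ring
      rw [e1]
      refine (((tr1 h1).pow a₂).mul (((tr2 k1).pow (a₁ + a₂)).mul (tr1 (h2 j (by omega))))).mono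
        le_rfl ?_
      rw [hD]
      nlinarith [Nat.zero_le (a₂ * D₂), Nat.zero_le ((a₁ + a₂) * D₁)]
    · have e1 : S ^ (a₁ + a₂) * v (2 * j + 1) =
          S₁ ^ (a₁ + a₂) * (S₂ ^ a₁ * (S₂ ^ a₂ * vj Δ l l₀ B j)) := by
        rw [hv, ← vv_odd Δ x l z₀ l₀ B j, hS, mul_pow, pow_add S₂]
        ring
      rw [e1]
      refine (((tr1 h1).pow (a₁ + a₂)).mul (((tr2 k1).pow a₁).mul (tr2 (k2 j (by omega))))).mono
        le_rfl ?_
      rw [hD]
      nlinarith [Nat.zero_le (a₂ * D₂), Nat.zero_le (a₂ * D₁), Nat.zero_le ((a₁ + a₂) * D₁)]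
  let β : ℕ → B → C := fun k b => if hk : k < N then algebraMap κ C (b.1 ⟨k, hk⟩) else 0
  have hβ : ∀ k < N, InP C v (2 * N) 1 (β k) := by
    intro k hk
    have h3 := coord_joint Δ hΔ x l hxl z₀ l₀ B ⟨k, hk⟩
    have h4 : β k = fun b : B => algebraMap κ C (b.1 ⟨k, hk⟩) := by
      funext b
      exact dif_pos hk
    rw [h4]
    exact h3
  have hall : ∀ f : B → C, InP C v (2 * N) (N * A.card) f := by
    intro f
    have h3 := lagrange β (A.image (algebraMap κ C)) (by
      intro k hk b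
      have h4 : β k b = algebraMap κ C (b.1 ⟨k, hk⟩) := dif_pos hk
      rw [h4]
      exact Finset.mem_image_of_mem _ (hA b.1 b.2 _)) (by
      intro b b' hbb
      apply Subtype.ext
      funext k
      have h4 := hbb k k.2
      have e1 : β k b = algebraMap κ C (b.1 k) := dif_pos k.2
      have e2 : β k b' = algebraMap κ C (b'.1 k) := dif_pos k.2
      rw [e1, e2] at h4
      exact (algebraMap κ C).injective h4) f
    have h5 : InP C v (2 * N) (N * (A.image (algebraMap κ C)).card) f := by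
      have h6 := InP.subst (s := (1 : B → C)) (a := 0) (D := 1) (InP.one.mono le_rfl (Nat.zero_le 1))
        (fun i hi => by
          rw [one_pow, one_mul]
          exact hβ i hi) h3
      rw [one_pow, one_mul] at h6
      exact h6.mono le_rfl (by simp)
    exact h5.mono le_rfl (Nat.mul_le_mul_left _ Finset.card_image_le)
  have hall' : ∀ f : B → C, InP C v n' ((a₁ + a₂ + 1) * D * (N * A.card)) f := by
    intro f
    have h3 := InP.subst hSP hSv (hall (fun b => (S b ^ ((a₁ + a₂) * (N * A.card)))⁻¹ * f b))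
    have h4 : S ^ ((a₁ + a₂) * (N * A.card)) *
        (fun b => (S b ^ ((a₁ + a₂) * (N * A.card)))⁻¹ * f b) = f := by
      funext b
      rw [Pi.mul_apply, Pi.pow_apply, ← mul_assoc, mul_inv_cancel₀ (pow_ne_zero _ (hS0 b)), one_mul]
    rw [h4] at h3
    exact h3
  have h3 := card_le_of_InP hall'
  rw [Fintype.card_coe] at h3
  refine h3.trans (Nat.pow_le_pow_left (Nat.add_le_add_right ?_ 1) _)
  rw [Nat.mul_assoc, Nat.mul_assoc, Nat.mul_assoc]

end Basic

/-- The last variable of a polynomial. -/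
theorem last_var {C : Type} [Field C] [CharZero C] {n : ℕ} {F : MvPolynomial ℕ C}
    (hF : F ∈ supported C {i : ℕ | i < n}) : (∃ a, F = MvPolynomial.C a) ∨
    ∃ i < n, pderiv i F ≠ 0 ∧ F ∈ supported C {j : ℕ | j < i + 1} := by
  classical
  by_cases hex : ∃ i < n, pderiv i F ≠ 0
  · right
    have hex' : ((Finset.range n).filter (fun i => pderiv i F ≠ 0)).Nonempty := by
      obtain ⟨i, hi, hi'⟩ := hex
      exact ⟨i, Finset.mem_filter.2 ⟨Finset.mem_range.2 hi, hi'⟩⟩
    set i := ((Finset.range n).filter (fun i => pderiv i F ≠ 0)).max' hex' with hi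
    have him := Finset.max'_mem _ hex'
    rw [← hi, Finset.mem_filter, Finset.mem_range] at him
    obtain ⟨hin, hiF⟩ := him
    have hmax : ∀ j, i < j → pderiv j F = 0 := by
      intro j hj
      by_contra hcon
      by_cases hjn : j < n
      · have hmem : j ∈ (Finset.range n).filter (fun i => pderiv i F ≠ 0) :=
          Finset.mem_filter.2 ⟨Finset.mem_range.2 hjn, hcon⟩
        have := Finset.le_max' _ j hmem
        omega
      · apply hcon
        apply pderiv_eq_zero_of_notMem_vars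
        intro hjv
        rw [mem_supported] at hF
        exact hjn (hF hjv)
    refine ⟨i, hin, hiF, ?_⟩
    rw [mem_supported]
    intro j hj
    by_contra hcon
    have hcon' : ¬ j < i + 1 := hcon
    exact notMem_vars_of_pderiv (hmax j (by omega)) hj
  · left
    push Not at hex
    have h1 : F.vars = ∅ := by
      rw [Finset.eq_empty_iff_forall_notMem]
      intro j hj
      by_cases hjn : j < n
      · exact notMem_vars_of_pderiv (hex j hjn) hj
      · rw [mem_supported] at hF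
        exact hjn (hF hj)
    have h2 : F ∈ supported C (∅ : Set ℕ) := by
      rw [mem_supported, h1]
      simp
    rw [supported_empty, Algebra.mem_bot] at h2
    obtain ⟨a, rfl⟩ := h2
    exact ⟨a, rfl⟩

/-- **The number of points at which both combinations satisfy differential equations.** -/
theorem count_joint (n N : ℕ) : ∀ e : ℕ, ∃ c : ℕ, ∀ (κ C : Type) [Field κ] [Field C] [CharZero C]
    [Algebra κ C] [Countable κ] [Uncountable C]
    (Δ : Derivation κ C C), (∀ z, Δ z = 0 → ∃ a : κ, algebraMap κ C a = z) →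
    ∀ x l : Fin N → C, (∀ c : Fin N → κ, ∑ j, c j • x j = 0 → ∑ j, c j • l j = 0 → c = 0) →
    ∀ (z₀ l₀ : C) (A : Finset κ), A.Nonempty → ∀ B : Finset (Fin N → κ), (∀ b ∈ B, ∀ k, b k ∈ A) →
    ∀ F G : MvPolynomial ℕ C, F ≠ 0 → G ≠ 0 → F ∈ supported C {i : ℕ | i < n} →
    G ∈ supported C {i : ℕ | i < n} → F.totalDegree + G.totalDegree ≤ e →
    (∀ b ∈ B, ev Δ (cb x z₀ b) F = 0) → (∀ b ∈ B, ev Δ (cb l l₀ b) G = 0) →
    B.card ≤ c * A.card ^ (4 * n) := by
  intro e
  induction e with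
  | zero =>
    refine ⟨0, fun κ C _ _ _ _ _ _ Δ hΔ x l hxl z₀ l₀ A hA B hBA F G hF0 hG0 hF hG hd hFB hGB => ?_⟩
    have h1 : F = MvPolynomial.C (coeff 0 F) := totalDegree_eq_zero_iff_eq_C.1 (by omega)
    rw [Nat.zero_mul, Nat.le_zero, Finset.card_eq_zero, Finset.eq_empty_iff_forall_notMem]
    intro b hb
    have h2 := hFB b hb
    rw [h1] at h2
    unfold ev at h2
    rw [eval_C] at h2
    apply hF0
    rw [h1, h2, map_zero]
  | succ e ih =>
    choose f hf using fun (i j : ℕ) => step_joint i j (e + 1) N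
    obtain ⟨c, ih⟩ := ih
    refine ⟨2 * c + ∑ i ∈ Finset.range n, ∑ j ∈ Finset.range n, (f i j + 1) ^ (4 * n),
      fun κ C _ _ _ _ _ _ Δ hΔ x l hxl z₀ l₀ A hA B hBA F G hF0 hG0 hF hG hd hFB hGB => ?_⟩
    classical
    have hA1 : 1 ≤ A.card := hA.card_pos
    have hconst : ∀ (H : MvPolynomial ℕ C) (a : C), H ≠ 0 → H = MvPolynomial.C a →
        ∀ y, ev Δ y H ≠ 0 := by
      intro H a hH hHa y h0
      rw [hHa] at h0
      unfold ev at h0
      rw [eval_C] at h0
      apply hH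
      rw [hHa, h0, map_zero]
    rcases B.eq_empty_or_nonempty with rfl | ⟨b₀, hb₀⟩
    · simp
    rcases last_var hF with ⟨a, ha⟩ | ⟨i, hi, hiF, hFi⟩
    · exact absurd (hFB b₀ hb₀) (hconst F a hF0 ha _)
    rcases last_var hG with ⟨a, ha⟩ | ⟨j, hj, hjG, hGj⟩
    · exact absurd (hGB b₀ hb₀) (hconst G a hG0 ha _)
    set S₁ := pderiv i F with hS₁
    set S₂ := pderiv j G with hS₂
    have hS₁d : S₁.totalDegree + 1 ≤ F.totalDegree := pderiv_totalDegree i F hiF
    have hS₂d : S₂.totalDegree + 1 ≤ G.totalDegree := pderiv_totalDegree j G hjG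
    set B₁ := B.filter (fun b => ev Δ (cb x z₀ b) S₁ = 0) with hB₁
    set B' := B.filter (fun b => ¬ ev Δ (cb x z₀ b) S₁ = 0) with hB'
    set B₂ := B'.filter (fun b => ev Δ (cb l l₀ b) S₂ = 0) with hB₂
    set B₃ := B'.filter (fun b => ¬ ev Δ (cb l l₀ b) S₂ = 0) with hB₃
    have hsum1 : B₁.card + B'.card = B.card := Finset.card_filter_add_card_filter_not _
    have hsum2 : B₂.card + B₃.card = B'.card := Finset.card_filter_add_card_filter_not _
    have hsub1 : ∀ b ∈ B₁, b ∈ B := fun b hb => (Finset.mem_filter.1 hb).1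
    have hsub' : ∀ b ∈ B', b ∈ B := fun b hb => (Finset.mem_filter.1 hb).1
    have hsub2 : ∀ b ∈ B₂, b ∈ B := fun b hb => hsub' b (Finset.mem_filter.1 hb).1
    have hsub3 : ∀ b ∈ B₃, b ∈ B := fun b hb => hsub' b (Finset.mem_filter.1 hb).1
    have h1 : B₁.card ≤ c * A.card ^ (4 * n) :=
      ih κ C Δ hΔ x l hxl z₀ l₀ A hA B₁ (fun b hb => hBA b (hsub1 b hb)) S₁ G hiF hG0
        (pderiv_supported i hF) hG (by omega) (fun b hb => (Finset.mem_filter.1 hb).2)
        (fun b hb => hGB b (hsub1 b hb))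
    have h2 : B₂.card ≤ c * A.card ^ (4 * n) :=
      ih κ C Δ hΔ x l hxl z₀ l₀ A hA B₂ (fun b hb => hBA b (hsub2 b hb)) F S₂ hF0 hjG hF
        (pderiv_supported j hG) (by omega) (fun b hb => hFB b (hsub2 b hb))
        (fun b hb => (Finset.mem_filter.1 hb).2)
    have h3 : B₃.card ≤ (f i j * A.card + 1) ^ (2 * (i + j + 1)) :=
      hf i j κ C Δ hΔ x l hxl z₀ l₀ A B₃ (fun b hb => hBA b (hsub3 b hb)) F G hFi hGj (by omega)
        (by omega) (fun b hb => hFB b (hsub3 b hb)) (fun b hb => hGB b (hsub3 b hb))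
        (fun b hb => (Finset.mem_filter.1 (Finset.mem_filter.1 hb).1).2)
        (fun b hb => (Finset.mem_filter.1 hb).2)
    have h4 : (f i j * A.card + 1) ^ (2 * (i + j + 1)) ≤ (f i j + 1) ^ (4 * n) * A.card ^ (4 * n) := by
      calc (f i j * A.card + 1) ^ (2 * (i + j + 1)) ≤ ((f i j + 1) * A.card) ^ (2 * (i + j + 1)) :=
            Nat.pow_le_pow_left (by nlinarith) _
        _ ≤ ((f i j + 1) * A.card) ^ (4 * n) := Nat.pow_le_pow_right (by nlinarith) (by omega)
        _ = (f i j + 1) ^ (4 * n) * A.card ^ (4 * n) := mul_pow _ _ _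
    have h5 : (f i j + 1) ^ (4 * n) ≤
        ∑ i ∈ Finset.range n, ∑ j ∈ Finset.range n, (f i j + 1) ^ (4 * n) := by
      refine le_trans ?_ (Finset.single_le_sum
        (f := fun i => ∑ j ∈ Finset.range n, (f i j + 1) ^ (4 * n)) (fun _ _ => Nat.zero_le _)
        (Finset.mem_range.2 hi))
      exact Finset.single_le_sum (f := fun j => (f i j + 1) ^ (4 * n)) (fun _ _ => Nat.zero_le _)
        (Finset.mem_range.2 hj)
    have h6 := Nat.mul_le_mul_right (A.card ^ (4 * n)) h5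
    calc B.card = B₁.card + (B₂.card + B₃.card) := by rw [hsum2, hsum1]
      _ ≤ c * A.card ^ (4 * n) + (c * A.card ^ (4 * n) +
          (f i j + 1) ^ (4 * n) * A.card ^ (4 * n)) :=
          Nat.add_le_add h1 (Nat.add_le_add h2 (h3.trans h4))
      _ ≤ c * A.card ^ (4 * n) + (c * A.card ^ (4 * n) +
          (∑ i ∈ Finset.range n, ∑ j ∈ Finset.range n, (f i j + 1) ^ (4 * n)) *
            A.card ^ (4 * n)) := by gcongr
      _ = _ := by ring

end Pool.Agent.Zk44.SC
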