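import Mathlib
import Pool.Agent.Zk44.GE.BadOde

/-!
# Differential equations for the logarithmic derivatives of bad numbers
-/

set_option autoImplicit false

namespace Pool.Agent.Zk44.SC

open MvPolynomial
open Pool.Agent.R351
open Pool.Agent.Zk44.GE Pool.Agent.Zk44.GE.Ode
open Pool.Agent.Y918.SC (Ex monE)
open Pool.Agent.W245 (IndepOver)

section Hom

variable {κ C : Type} [Field κ] [Field C] [Algebra κ C]

theorem cd_hom (Δ : Derivation κ C C) {p : MvPolynomial ℕ C} {n : ℕ} (h : p.IsHomogeneous n) :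
    (cd Δ p).IsHomogeneous n := by
  intro d hd
  apply h
  rw [coeff_cd] at hd
  intro h0
  rw [h0, map_zero] at hd
  exact hd rfl

theorem exists_supported (p : MvPolynomial ℕ C) : ∃ n, p ∈ supported C {i : ℕ | i < n + 1} := by
  refine ⟨p.vars.sup id, ?_⟩
  rw [mem_supported]
  intro i hi
  exact Nat.lt_succ_of_le (Finset.le_sup (f := id) (Finset.mem_coe.1 hi))

theorem sd_hom {p : MvPolynomial ℕ C} {n : ℕ} (h : p.IsHomogeneous n) :
    (sd C p).IsHomogeneous n := by
  obtain ⟨k, hk⟩ := exists_supported p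
  rw [sd_eq hk]
  refine IsHomogeneous.sum _ _ _ fun i _ => ?_
  rcases Nat.eq_zero_or_pos n with rfl | hn
  · have h1 : pderiv i p = 0 := by
      have h2 := totalDegree_eq_zero_iff_eq_C.1 ((totalDegree_zero_iff_isHomogeneous ℕ).2 h)
      rw [h2, pderiv_C]
    rw [h1, mul_zero]
    exact isHomogeneous_zero _ _ _
  · have h1 := (isHomogeneous_X C (i + 1)).mul (h.pderiv (i := i))
    rwa [Nat.add_sub_cancel' hn] at h1

theorem DD_hom (Δ : Derivation κ C C) {p : MvPolynomial ℕ C} {n : ℕ} (h : p.IsHomogeneous n) :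
    (DD Δ p).IsHomogeneous n := (cd_hom Δ h).add (sd_hom h)

theorem iter_hom (Δ : Derivation κ C C) {p : MvPolynomial ℕ C} {n : ℕ} (h : p.IsHomogeneous n)
    (c : ℕ) : ((DD Δ)^[c] p).IsHomogeneous n := by
  induction c with
  | zero => exact h
  | succ c ih =>
    rw [Function.iterate_succ_apply']
    exact DD_hom Δ ih

theorem WF_hom (Δ : Derivation κ C C) {Q : ℕ} {P : Fin Q → MvPolynomial ℕ C} {D : Fin Q → ℕ}
    (h : ∀ i, (P i).IsHomogeneous (D i)) : (WF Δ Q P).IsHomogeneous (∑ i, D i) := by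
  unfold WF
  rw [Matrix.det_apply']
  refine IsHomogeneous.sum _ _ _ fun σ _ => ?_
  have h0 : ((((Equiv.Perm.sign σ : ℤˣ) : ℤ) : MvPolynomial ℕ C)).IsHomogeneous 0 := by
    rw [← map_intCast (MvPolynomial.C : C →+* MvPolynomial ℕ C)]
    exact isHomogeneous_C _ _
  have h1 := h0.mul (IsHomogeneous.prod Finset.univ
    (fun i => (Matrix.of fun i c : Fin Q => (DD Δ)^[c] (P i)) (σ i) i) (fun i => D (σ i))
    (fun i _ => iter_hom Δ (h _) _))
  rw [zero_add, Equiv.sum_comp σ D] at h1
  exact h1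

theorem eval_hom {F : MvPolynomial ℕ C} {n : ℕ} (hF : F.IsHomogeneous n) (y : C) (b : ℕ → C) :
    eval (fun i => y * b i) F = y ^ n * eval b F := by
  rw [eval_eq, eval_eq, Finset.mul_sum]
  refine Finset.sum_congr rfl fun d hd => ?_
  have h1 : ∏ i ∈ d.support, (y * b i) ^ d i = y ^ n * ∏ i ∈ d.support, b i ^ d i := by
    have h2 : n = ∑ i ∈ d.support, d i := hF.degree_eq_sum_deg_support hd
    rw [h2, ← Finset.prod_pow_eq_pow_sum, ← Finset.prod_mul_distrib]
    exact Finset.prod_congr rfl fun i _ => mul_pow _ _ _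
  rw [h1]
  ring

end Hom

section Bell

variable {κ C : Type} [Field κ] [Field C] [Algebra κ C]

/-- the derivatives of a number in terms of its logarithmic derivative -/
noncomputable def bell (Δ : Derivation κ C C) : ℕ → MvPolynomial ℕ C
  | 0 => 1
  | c + 1 => DD Δ (bell Δ c) + X 0 * bell Δ c

theorem ev_bell (Δ : Derivation κ C C) {y l : C} (h : Δ y = l * y) (c : ℕ) :
    dit Δ c y = y * ev Δ l (bell Δ c) := by
  induction c with
  | zero =>
    have : bell Δ 0 = 1 := rfl
    rw [this, map_one, mul_one, dit_zero]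
  | succ c ih =>
    have h1 : bell Δ (c + 1) = DD Δ (bell Δ c) + X 0 * bell Δ c := rfl
    have h2 : ev Δ l (X 0) = l := eval_X _
    rw [dit_succ, ih, Derivation.leibniz, h, h1, map_add, map_mul, h2, ev_DD]
    simp only [smul_eq_mul]
    ring

theorem bell_supported (Δ : Derivation κ C C) (c : ℕ) :
    bell Δ c ∈ supported C {i : ℕ | i < c} := by
  induction c with
  | zero => exact Subalgebra.one_mem _
  | succ c ih =>
    refine Subalgebra.add_mem _ (DD_supported Δ ih) (Subalgebra.mul_mem _ ?_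
      (supported_mono' (Nat.le_succ c) ih))
    rw [X_mem_supported]
    exact Nat.succ_pos c

theorem bell_totalDegree (Δ : Derivation κ C C) (c : ℕ) : (bell Δ c).totalDegree ≤ c := by
  induction c with
  | zero =>
    have : bell Δ 0 = 1 := rfl
    rw [this, totalDegree_one]
  | succ c ih =>
    refine (totalDegree_add _ _).trans (max_le ((DD_totalDegree Δ _).trans (by omega)) ?_)
    refine (totalDegree_mul _ _).trans ?_
    rw [totalDegree_X]
    omega

/-- the equation for the logarithmic derivative -/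
noncomputable def deh (Δ : Derivation κ C C) (F : MvPolynomial ℕ C) : MvPolynomial ℕ C :=
  aeval (bell Δ) F

theorem ev_deh (Δ : Derivation κ C C) (l : C) (F : MvPolynomial ℕ C) :
    ev Δ l (deh Δ F) = eval (fun c => ev Δ l (bell Δ c)) F := by
  unfold deh
  have h1 : (ev Δ l).comp (aeval (bell Δ) : MvPolynomial ℕ C →ₐ[C] MvPolynomial ℕ C).toRingHom =
      eval (fun c => ev Δ l (bell Δ c)) := by
    apply MvPolynomial.ringHom_ext
    · intro a
      simp [ev]
    · intro i
      simp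
  exact RingHom.congr_fun h1 F

theorem ev_deh_hom (Δ : Derivation κ C C) {y l : C} (h : Δ y = l * y) {F : MvPolynomial ℕ C}
    {n : ℕ} (hF : F.IsHomogeneous n) : ev Δ y F = y ^ n * ev Δ l (deh Δ F) := by
  rw [ev_deh, ← eval_hom hF]
  unfold ev
  have h1 : (fun i => dit Δ i y) = fun i => y * ev Δ l (bell Δ i) := by
    funext i
    exact ev_bell Δ h i
  rw [h1]
  rfl

theorem deh_bound (Δ : Derivation κ C C) {F : MvPolynomial ℕ C} {n d : ℕ}
    (h1 : F ∈ supported C {i : ℕ | i < n}) (h2 : F.totalDegree ≤ d) :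
    deh Δ F ∈ supported C {i : ℕ | i < n} ∧ (deh Δ F).totalDegree ≤ n * d := by
  have h3 : InP C (bell Δ) n d (deh Δ F) := ⟨F, h1, h2, rfl⟩
  have h4 : ∀ i < n, InP C (X : ℕ → MvPolynomial ℕ C) n n ((1 : MvPolynomial ℕ C) ^ 0 * bell Δ i) := by
    intro i hi
    refine ⟨bell Δ i, supported_mono' hi.le (bell_supported Δ i), (bell_totalDegree Δ i).trans hi.le,
      ?_⟩
    rw [pow_zero, one_mul]
    exact aeval_X_left_apply _
  obtain ⟨p, k1, k2, k3⟩ := InP.subst (s := (1 : MvPolynomial ℕ C)) (a := 0) (D := n)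
    (InP.one.mono le_rfl (Nat.zero_le _)) h4 h3
  rw [one_pow, one_mul, aeval_X_left_apply] at k3
  rw [← k3]
  exact ⟨k1, k2.trans (by rw [Nat.zero_add, Nat.one_mul])⟩

end Bell

/-- **The bad points satisfy one homogeneous differential equation of bounded order and degree.** -/
theorem bad_ode_hom (h g L : ℕ) : ∃ n d R : ℕ, ∀ (κ C : Type) [Field κ] [IsAlgClosed κ]
    [CharZero κ] [Field C] [CharZero C] [Algebra κ C] (Δ : Derivation κ C C),
    (∀ z, Δ z = 0 → ∃ a : κ, algebraMap κ C a = z) → ∀ (t : Fin g → C),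
    ∀ lam : Fin R → C, LinearIndependent κ lam →
    ∃ (F : MvPolynomial ℕ C) (m : ℕ), F.IsHomogeneous m ∧ (∃ y, ev Δ y F ≠ 0) ∧
      F ∈ supported C {i : ℕ | i < n} ∧ F.totalDegree ≤ d ∧
    ∀ y : C, ¬ (∀ u : Fin h → C, ExpLike Δ u → Good1 κ (Fin.append u t) L y) → ev Δ y F = 0 := by
  classical
  obtain ⟨K, N₁, M, hgood⟩ := good_of_indep h g L
  obtain ⟨R, hR⟩ := cube_jet M K N₁
  obtain ⟨E, hE⟩ : ∃ E, E = Fintype.card (Ex (Fin K) Empty N₁) := ⟨_, rfl⟩
  refine ⟨K + M * E, M * E * (K * N₁), R, fun κ C _ _ _ _ _ _ Δ hΔ t lam hlam => ?_⟩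
  obtain ⟨W, hWf, hWM, hW⟩ := hgood κ C Δ t
  let bs := Module.finBasis κ W
  set q := Module.finrank κ W with hq
  let w : Fin q → C := fun r => (bs r : C)
  have hw : LinearIndependent κ w :=
    bs.linearIndependent.map' W.subtype (Submodule.ker_subtype _)
  -- the family
  let Q := Fintype.card (Fin q × Ex (Fin K) Empty N₁)
  let e : Fin Q ≃ Fin q × Ex (Fin K) Empty N₁ := (Fintype.equivFin _).symm
  let pm : Fin q × Ex (Fin K) Empty N₁ → MvPolynomial ℕ C := fun p =>
    MvPolynomial.C (w p.1) * ∏ c : Fin K, X (c : ℕ) ^ (p.2 (Sum.inl c) : ℕ)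
  have hQ : Q ≤ M * E := by
    have h1 : Q = q * E := by
      simp only [Q]
      rw [Fintype.card_prod, Fintype.card_fin, hE]
    rw [h1]
    exact Nat.mul_le_mul_right _ hWM
  have hpm0 : ∀ p, (pm p).IsHomogeneous (∑ c : Fin K, (p.2 (Sum.inl c) : ℕ)) := by
    intro p
    have h1 := (isHomogeneous_C ℕ (w p.1)).mul (IsHomogeneous.prod Finset.univ
      (fun c : Fin K => (X (c : ℕ) : MvPolynomial ℕ C) ^ (p.2 (Sum.inl c) : ℕ))
      (fun c : Fin K => (p.2 (Sum.inl c) : ℕ)) (fun c _ => by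
        have := (isHomogeneous_X C (c : ℕ)).pow (p.2 (Sum.inl c) : ℕ)
        rwa [one_mul] at this))
    rwa [zero_add] at h1
  have hpm1 : ∀ p, pm p ∈ supported C {i : ℕ | i < K} := by
    intro p
    refine Subalgebra.mul_mem _ (Subalgebra.algebraMap_mem _ _) (Subalgebra.prod_mem _ fun c _ => ?_)
    have hX : (X (c : ℕ) : MvPolynomial ℕ C) ∈ supported C {i : ℕ | i < K} :=
      X_mem_supported.2 c.2
    exact Subalgebra.pow_mem _ hX _
  have hpm2 : ∀ p, (pm p).totalDegree ≤ K * N₁ := by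
    intro p
    refine (totalDegree_mul _ _).trans ?_
    rw [totalDegree_C, zero_add]
    refine (totalDegree_finsetProd _ _).trans ?_
    refine (Finset.sum_le_card_nsmul _ _ N₁ fun c _ => ?_).trans ?_
    · refine (totalDegree_pow _ _).trans ?_
      rw [totalDegree_X, mul_one]
      exact Nat.lt_succ_iff.1 (p.2 (Sum.inl c)).2
    · simp
  have hpm3 : ∀ (y : C) p, ev Δ y (pm p) = w p.1 *
      monE (D := N₁) (fun c : Fin K => dit Δ c y) (fun l : Empty => l.elim) p.2 := by
    intro y p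
    unfold ev monE
    rw [map_mul, eval_C, map_prod]
    simp only [map_pow, eval_X]
    simp
  refine ⟨WF Δ Q (fun i => pm (e i)), _, WF_hom Δ (fun i => hpm0 (e i)), ?_, ?_, ?_, ?_⟩
  · -- a good point
    obtain ⟨S, hS⟩ := hR κ C Δ hΔ W hWf hWM 0 lam hlam
    set y := (0 : C) + ∑ i ∈ S, lam i with hy
    refine ⟨y, fun h1 => ?_⟩
    rw [ev_WF] at h1
    refine wronskian_ne_zero Δ hΔ Q (fun i => ev Δ y (pm (e i))) ?_ h1
    have h2 : LinearIndependent κ (fun p : Fin q × Ex (Fin K) Empty N₁ => ev Δ y (pm p)) := by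
      rw [Fintype.linearIndependent_iff]
      intro c hc
      have h3 := hS (fun e => ∑ r, c (r, e) • w r)
        (fun e => Submodule.sum_mem _ fun r _ => Submodule.smul_mem _ _ (bs r).2) (by
          rw [← hc, Fintype.sum_prod_type_right]
          refine Finset.sum_congr rfl fun e _ => ?_
          rw [Finset.sum_mul]
          refine Finset.sum_congr rfl fun r _ => ?_
          rw [hpm3, smul_mul_assoc])
      rintro ⟨r, e⟩
      exact Fintype.linearIndependent_iff.1 hw (fun r => c (r, e)) (h3 e) r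
    exact h2.comp _ e.injective
  · exact supported_mono' (Nat.add_le_add_left hQ K) (WF_supported Δ (fun i => hpm1 (e i)))
  · exact (WF_totalDegree Δ (fun i => hpm2 (e i))).trans (Nat.mul_le_mul_right _ hQ)
  · intro y hy
    have h1 : ¬ IndepOver W (monE (D := N₁) (fun c : Fin K => dit Δ c y)
        (fun l : Empty => l.elim)) := fun h => hy (hW y h)
    unfold IndepOver at h1
    push Not at h1
    obtain ⟨c, hcW, hc0, e₀, he₀⟩ := h1
    rw [ev_WF]
    -- the coordinates
    let β : Fin q × Ex (Fin K) Empty N₁ → κ := fun p => bs.repr ⟨c p.2, hcW p.2⟩ p.1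
    have hβ : ∀ e, ∑ r, β (r, e) • w r = c e := by
      intro e
      have h2 := bs.sum_repr ⟨c e, hcW e⟩
      have h3 := congrArg (Submodule.subtype W) h2
      rw [map_sum] at h3
      simp only [map_smul] at h3
      exact h3
    refine wronskian_eq_zero Δ Q _ (fun i => β (e i)) ?_ ?_
    · intro h0
      apply he₀
      rw [← hβ e₀]
      refine Finset.sum_eq_zero fun r _ => ?_
      have h4 := congrFun h0 (e.symm (r, e₀))
      rw [Equiv.apply_symm_apply] at h4
      rw [h4]
      exact zero_smul _ _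
    · rw [Equiv.sum_comp e (fun p => β p • ev Δ y (pm p)), Fintype.sum_prod_type_right, ← hc0]
      refine Finset.sum_congr rfl fun e' _ => ?_
      rw [← hβ e', Finset.sum_mul]
      refine Finset.sum_congr rfl fun r _ => ?_
      rw [hpm3, smul_mul_assoc]

/-- **Equations for the numbers and for their logarithmic derivatives.** -/
theorem bad_ode2 (h g L : ℕ) : ∃ n d R : ℕ, ∀ (κ C : Type) [Field κ] [IsAlgClosed κ]
    [CharZero κ] [Field C] [CharZero C] [Algebra κ C] (Δ : Derivation κ C C),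
    (∀ z, Δ z = 0 → ∃ a : κ, algebraMap κ C a = z) → ∀ (t : Fin g → C),
    ∀ lam : Fin R → C, LinearIndependent κ lam →
    ∃ F G : MvPolynomial ℕ C, F ≠ 0 ∧ G ≠ 0 ∧ F ∈ supported C {i : ℕ | i < n} ∧
      G ∈ supported C {i : ℕ | i < n} ∧ F.totalDegree ≤ d ∧ G.totalDegree ≤ d ∧
    (∀ y : C, ¬ (∀ u : Fin h → C, ExpLike Δ u → Good1 κ (Fin.append u t) L y) → ev Δ y F = 0) ∧
    (∀ y l : C, y ≠ 0 → Δ y = l * y →
      ¬ (∀ u : Fin h → C, ExpLike Δ u → Good1 κ (Fin.append u t) L y) → ev Δ l G = 0) := by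
  obtain ⟨n, d, R, H⟩ := bad_ode_hom h g L
  refine ⟨n, d + n * d, R, fun κ C _ _ _ _ _ _ Δ hΔ t lam hlam => ?_⟩
  obtain ⟨F, m, h1, ⟨y₀, hy₀⟩, h3, h4, h5⟩ := H κ C Δ hΔ t lam hlam
  have hF0 : F ≠ 0 := by
    rintro rfl
    rw [map_zero] at hy₀
    exact hy₀ rfl
  obtain ⟨k1, k2⟩ := deh_bound Δ h3 h4
  refine ⟨F, deh Δ F, hF0, ?_, h3, k1, h4.trans (Nat.le_add_right _ _),
    k2.trans (Nat.le_add_left _ _), h5, ?_⟩
  · intro h0
    by_cases hy : y₀ = 0
    · -- constant
      have e1 : ev Δ y₀ F = coeff 0 F := by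
        unfold ev
        have : (fun i => dit Δ i y₀) = fun _ => (0 : C) := by
          funext i
          rw [hy, dit_map_zero]
        rw [this]
        have h6 : (fun _ : ℕ => (0 : C)) = 0 := rfl
        rw [h6, ← constantCoeff_eq, eval_zero]
      have h7 : coeff 0 F ≠ 0 := by rwa [← e1]
      have h8 : m = 0 := by
        have := h1 h7
        simpa using this.symm
      subst h8
      have h9 := totalDegree_eq_zero_iff_eq_C.1 ((totalDegree_zero_iff_isHomogeneous ℕ).2 h1)
      unfold deh at h0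
      rw [h9, aeval_C] at h0
      have h10 : coeff 0 F = 0 := by
        have h11 : (MvPolynomial.C (coeff 0 F) : MvPolynomial ℕ C) = 0 := h0
        rwa [C_eq_zero] at h11
      exact h7 h10
    · have h6 : Δ y₀ = (Δ y₀ / y₀) * y₀ := by field_simp
      have h7 := ev_deh_hom Δ h6 h1
      rw [h0, map_zero, mul_zero] at h7
      exact hy₀ h7
  · intro y l hy hl hbad
    have h6 := h5 y hbad
    rw [ev_deh_hom Δ hl h1] at h6
    exact (mul_eq_zero.1 h6).resolve_left (pow_ne_zero _ hy)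

end Pool.Agent.Zk44.SC
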