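import Mathlib
import Pool.Agent.R351.Der
import Pool.Agent.Zk44.GE.Der

/-!
# A derivation of the complex numbers which detects all closed logarithmic forms
-/

set_option autoImplicit false

namespace Pool.Agent.Zk44.SC

open Pool.Agent.R351 Complex
open Pool.Agent.H351R3.Gel (QB)
open Pool.Agent.Zk44.GE (not_alg_countable countable_QB)

/-- the value of the form `dx + ∑ c_j du_j / u_j` at a derivation -/
noncomputable def form {n : ℕ} (x : ℂ) (c : Fin n → QB) (u : Fin n → ℂ)
    (F : Derivation QB ℂ ℂ) : ℂ := F x + ∑ j, (c j : ℂ) * (F (u j) / u j)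

theorem form_symm {n : ℕ} (x : ℂ) (c : Fin n → QB) (u : Fin n → ℂ)
    (P Q : Derivation QB ℂ ℂ) (hPQ : ∀ z, P (Q z) = Q (P z)) :
    P (form x c u Q) = Q (form x c u P) := by
  unfold form
  rw [map_add, map_add, hPQ, map_sum, map_sum]
  congr 1
  refine Finset.sum_congr rfl fun j _ => ?_
  have h1 : P (c j : ℂ) = 0 := P.map_algebraMap (c j)
  have h2 : Q (c j : ℂ) = 0 := Q.map_algebraMap (c j)
  rw [Derivation.leibniz, Derivation.leibniz, h1, h2, smul_zero, smul_zero, add_zero, add_zero,
    Derivation.leibniz_div, Derivation.leibniz_div, hPQ]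
  simp only [smul_eq_mul]
  ring

/-- **The derivation.** A closed form `dx + ∑ c_j du_j / u_j` with algebraic `c_j` which vanishes at
this derivation vanishes at all derivations. -/
theorem exists_shift : ∃ Δ : Derivation QB ℂ ℂ, ∀ (n : ℕ) (x : ℂ) (c : Fin n → QB) (u : Fin n → ℂ),
    (∀ j, u j ≠ 0) → form x c u Δ = 0 → ∀ F : Derivation QB ℂ ℂ, form x c u F = 0 := by
  classical
  obtain ⟨B, hB⟩ := exists_isTranscendenceBasis QB ℂ
  have hBinf : Infinite B := by
    by_contra hfin
    rw [not_infinite_iff_finite] at hfin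
    refine not_alg_countable B (Set.toFinite B).countable ?_
    have h4 := hB.isAlgebraic
    rwa [Subtype.range_coe] at h4
  obtain ⟨φ⟩ : Nonempty (B ≃ B × ℕ) := by
    rw [← Cardinal.eq]
    simp
  let sh : B → B := fun b => φ.symm ((φ b).1, (φ b).2 + 1)
  have hsh : ∀ b, φ (sh b) = ((φ b).1, (φ b).2 + 1) := fun b => by simp [sh]
  have hshinj : Function.Injective sh := by
    intro a b hab
    have h1 := congrArg φ hab
    rw [hsh, hsh, Prod.mk.injEq] at h1
    apply φ.injective
    exact Prod.ext h1.1 (by omega)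
  obtain ⟨Δ, hΔ⟩ := exists_der_values (fun x : B => (x : ℂ)) hB.1 (fun x => ((sh x : B) : ℂ))
  choose P hP using fun x : B => exists_der_values (fun x : B => (x : ℂ)) hB.1
    (fun x' => if x' = x then (1 : ℂ) else 0)
  have hcomm : ∀ x x' : B, ∀ z, P x (P x' z) = P x' (P x z) := by
    intro x x' z
    have h1 : ⁅P x, P x'⁆ = (0 : Derivation QB ℂ ℂ) := by
      apply der_ext hB
      intro i
      rw [Derivation.commutator_apply, hP, hP, Derivation.zero_apply]
      split_ifs <;> simp
    have h2 := DFunLike.congr_fun h1 z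
    rw [Derivation.commutator_apply, Derivation.zero_apply, sub_eq_zero] at h2
    exact h2
  -- one number
  have hcomb : ∀ z : ℂ, ∃ S : Finset B, ∀ F : Derivation QB ℂ ℂ, ∀ T : Finset B, S ⊆ T →
      F z = ∑ x ∈ T, F (x : ℂ) * P x z := by
    intro z
    obtain ⟨S, hS⟩ := exists_finset_algebraic hB z
    refine ⟨S, fun F T hST => ?_⟩
    have hT : IsAlgebraic (Algebra.adjoin QB (Set.range fun i : T => ((i : B) : ℂ))) z := by
      have hle : Algebra.adjoin QB (Set.range fun i : S => ((i : B) : ℂ)) ≤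
          Algebra.adjoin QB (Set.range fun i : T => ((i : B) : ℂ)) := by
        apply Algebra.adjoin_mono
        rintro _ ⟨i, rfl⟩
        exact ⟨⟨i, hST i.2⟩, rfl⟩
      obtain ⟨p, hp0, hp⟩ := hS
      refine ⟨p.map (Subalgebra.inclusion hle).toRingHom, ?_, ?_⟩
      · rwa [Ne, Polynomial.map_eq_zero_iff]
        exact Subalgebra.inclusion_injective hle
      · rw [← hp, Polynomial.aeval_def, Polynomial.eval₂_map, Polynomial.aeval_def]
        rfl
    have h1 : (F - ∑ x ∈ T, (F (x : ℂ)) • P x) z = 0 := by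
      apply der_zero_of_algebraic (fun i : T => ((i : B) : ℂ)) _ _ z hT
      rintro ⟨x, hx⟩
      rw [Derivation.sub_apply, sub_eq_zero]
      have h2 : (∑ x' ∈ T, (F (x' : ℂ)) • P x') (x : ℂ) = ∑ x' ∈ T, F (x' : ℂ) * P x' (x : ℂ) := by
        rw [sum_der_apply]
        rfl
      rw [h2, Finset.sum_eq_single x]
      · rw [hP, if_pos rfl, mul_one]
      · intro x' _ hne
        rw [hP, if_neg (Ne.symm hne), mul_zero]
      · intro h3; exact absurd hx h3
    rw [Derivation.sub_apply, sub_eq_zero] at h1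
    rw [h1, sum_der_apply]
    rfl
  refine ⟨Δ, fun n x c u hu h0 => ?_⟩
  -- one set for the form
  obtain ⟨S, hS⟩ : ∃ S : Finset B, ∀ F : Derivation QB ℂ ℂ, form x c u F =
      ∑ y ∈ S, F (y : ℂ) * form x c u (P y) := by
    choose S hS using hcomb
    refine ⟨S x ∪ Finset.univ.biUnion (fun j => S (u j)), fun F => ?_⟩
    set T := S x ∪ Finset.univ.biUnion (fun j => S (u j)) with hT
    have h1 := hS x F T Finset.subset_union_left
    have h2 : ∀ j, F (u j) = ∑ y ∈ T, F (y : ℂ) * P y (u j) := fun j =>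
      hS (u j) F T ((Finset.subset_biUnion_of_mem (fun j => S (u j)) (Finset.mem_univ j)).trans
        Finset.subset_union_right)
    unfold form
    simp only [mul_add, Finset.sum_add_distrib]
    rw [h1]
    congr 1
    simp only [Finset.mul_sum]
    rw [Finset.sum_comm]
    refine Finset.sum_congr rfl fun j _ => ?_
    rw [h2 j, Finset.sum_div, Finset.mul_sum]
    refine Finset.sum_congr rfl fun y _ => ?_
    ring
  have hvan : ∀ y ∉ S, form x c u (P y) = 0 := by
    intro y hy
    rw [hS]
    apply Finset.sum_eq_zero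
    intro y' hy'
    rw [hP, if_neg (by rintro rfl; exact hy hy'), zero_mul]
  have hall : ∀ y : B, form x c u (P y) = 0 := by
    by_contra hcon
    push Not at hcon
    obtain ⟨b₀, hb₀⟩ := hcon
    have hfin : {y : B | form x c u (P y) ≠ 0}.Finite := by
      refine Set.Finite.subset S.finite_toSet ?_
      intro y hy
      by_contra h
      exact hy (hvan y h)
    obtain ⟨y₀, hy₀, hmax⟩ := Set.exists_max_image _ (fun y : B => (φ y).2) hfin ⟨b₀, hb₀⟩
    have hσ0 : form x c u (P (sh y₀)) = 0 := by
      by_contra h0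
      have := hmax (sh y₀) h0
      rw [hsh] at this
      simp at this
    have h1 : P (sh y₀) (form x c u Δ) = form x c u (P y₀) := by
      have hterm : ∀ y ∈ S, P (sh y₀) (Δ (y : ℂ) * form x c u (P y)) =
          (if y = y₀ then 1 else 0) * form x c u (P y) := by
        intro y _
        rw [Derivation.leibniz, form_symm x c u _ _ (hcomm _ _), hσ0, map_zero, smul_zero,
          zero_add, hΔ, hP, smul_eq_mul, mul_comm]
        congr 1
        by_cases h : y = y₀
        · rw [if_pos h, h, if_pos rfl]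
        · rw [if_neg h, if_neg fun h' => h (hshinj h')]
      rw [hS Δ, map_sum, Finset.sum_congr rfl hterm]
      rw [Finset.sum_eq_single y₀]
      · rw [if_pos rfl, one_mul]
      · intro y _ hne
        rw [if_neg hne, zero_mul]
      · intro h
        rw [hvan _ h, mul_zero]
    rw [h0, map_zero] at h1
    exact hy₀ h1.symm
  intro F
  rw [hS F]
  apply Finset.sum_eq_zero
  intro y _
  rw [hall y, mul_zero]

/-- The constants of such a derivation are algebraic. -/
theorem const_of {Δ : Derivation QB ℂ ℂ} (hΔ : ∀ (n : ℕ) (x : ℂ) (c : Fin n → QB) (u : Fin n → ℂ),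
    (∀ j, u j ≠ 0) → form x c u Δ = 0 → ∀ F : Derivation QB ℂ ℂ, form x c u F = 0) (z : ℂ)
    (hz : Δ z = 0) : ∃ a : QB, algebraMap QB ℂ a = z := by
  have hac : IsAlgClosure ℚ QB := algebraicClosure.isAlgClosure ℚ ℂ
  have hacl : IsAlgClosed QB := IsAlgClosure.isAlgClosed ℚ
  have h1 : ∀ F : Derivation QB ℂ ℂ, F z = 0 := by
    intro F
    have h := hΔ 0 z (fun j => j.elim0) (fun j => j.elim0) (fun j => j.elim0) (by
      unfold form
      simp [hz]) F
    unfold form at h
    simpa using h
  have halg := algebraic_of_der_zero z h1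
  obtain ⟨p, hp0, hp⟩ := halg
  have hs : (p.map (algebraMap QB ℂ)).roots = p.roots.map (algebraMap QB ℂ) :=
    (IsAlgClosed.splits p).roots_map _
  have h1 : z ∈ (p.map (algebraMap QB ℂ)).roots := by
    rw [Polynomial.mem_roots (by rwa [Ne, Polynomial.map_eq_zero]), Polynomial.IsRoot,
      Polynomial.eval_map, ← Polynomial.aeval_def, hp]
  rw [hs, Multiset.mem_map] at h1
  obtain ⟨a, _, ha⟩ := h1
  exact ⟨a, ha⟩

end Pool.Agent.Zk44.SC
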