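import Mathlib
import Pool.Agent.H297R2.BakerThm
import Pool.Agent.TH813.Ros
import Pool.Agent.Zk44.GE.Rate
import Pool.Agent.Zk44.SC.Shift
import Pool.Agent.Zk44.SC.EType
import Pool.Agent.Zk44.SC.Joint

/-!
# Combinations such that both the number and its exponential are bad
-/

set_option autoImplicit false

namespace Pool.Agent.Zk44.SC

open Module Finset Pool.Agent.R351 Complex
open Pool.Agent.H351R3.Gel (QB)
open Pool.Agent.Zk44.GE.Ode (cb)
open Pool.Agent.Zk44.GE (ExpLike)

/-- the logarithmic derivative of the exponential -/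
noncomputable def psi (D : Derivation QB ℂ ℂ) : ℂ →+ ℂ where
  toFun w := cexp (-w) * D (cexp w)
  map_zero' := by simp
  map_add' := by
    intro v w
    have h2 : cexp (-v) * cexp v = 1 := by rw [← Complex.exp_add]; simp
    have h3 : cexp (-w) * cexp w = 1 := by rw [← Complex.exp_add]; simp
    rw [neg_add, Complex.exp_add, Complex.exp_add, Derivation.leibniz, smul_eq_mul, smul_eq_mul]
    linear_combination (cexp (-w) * D (cexp w)) * h2 + (cexp (-v) * D (cexp v)) * h3

theorem psi_apply (D : Derivation QB ℂ ℂ) (w : ℂ) : psi D w = cexp (-w) * D (cexp w) := rfl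

theorem der_exp (D : Derivation QB ℂ ℂ) (w : ℂ) : D (cexp w) = psi D w * cexp w := by
  have h : cexp w * cexp (-w) = 1 := by rw [← Complex.exp_add]; simp
  rw [psi_apply]
  linear_combination -(D (cexp w)) * h

theorem psi_div (D : Derivation QB ℂ ℂ) (w : ℂ) : D (cexp w) / cexp w = psi D w := by
  rw [der_exp, mul_div_cancel_right₀ _ (Complex.exp_ne_zero _)]

theorem psi_smul (D : Derivation QB ℂ ℂ) (q : ℚ) (w : ℂ) : psi D ((q : ℂ) * w) = (q : ℂ) * psi D w := by
  have h := (psi D).toRatLinearMap.map_smul q w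
  rw [Rat.smul_def, Rat.smul_def] at h
  exact h

theorem psi_comb (D : Derivation QB ℂ ℂ) {N : ℕ} (z : ℂ) (x : Fin N → ℂ) (b : Fin N → ℚ) :
    psi D (z + ∑ k, (b k : ℂ) * x k) = psi D z + ∑ k, (b k : ℂ) * psi D (x k) := by
  rw [map_add, map_sum]
  congr 1
  exact Finset.sum_congr rfl fun k _ => psi_smul D _ _

/-- Derivations of `ℂ` vanish on the algebraic numbers. -/
theorem exists_lift (D : Derivation ℚ ℂ ℂ) (hD : ∀ w ∈ QB, D w = 0) :
    ∃ F : Derivation QB ℂ ℂ, ∀ z, F z = D z := by
  refine ⟨Derivation.mk' (R := QB) (A := ℂ) (M := ℂ)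
    { toFun := D
      map_add' := D.map_add
      map_smul' := fun c z => by
        have h0 : D (algebraMap QB ℂ c) = 0 := hD _ c.2
        rw [Algebra.smul_def c z, D.leibniz, h0, smul_zero, add_zero, RingHom.id_apply,
          Algebra.smul_def c (D z), smul_eq_mul] } (fun a b => D.leibniz a b), fun z => rfl⟩

theorem algebraic_of_psi {w : ℂ} (h : ∀ D : Derivation QB ℂ ℂ, psi D w = 0) :
    IsAlgebraic ℚ (cexp w) := by
  have h1 : IsAlgebraic QB (cexp w) := by
    apply algebraic_of_der_zero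
    intro D
    rw [der_exp, h, zero_mul]
  have hac : IsAlgClosure ℚ QB := algebraicClosure.isAlgClosure ℚ ℂ
  have hacl : IsAlgClosed QB := IsAlgClosure.isAlgClosed ℚ
  have : Algebra.IsAlgebraic ℚ QB := hac.isAlgebraic
  exact h1.restrictScalars ℚ

/-- **The joint independence of the numbers and of the logarithmic derivatives of their
exponentials.** -/
theorem joint_indep {Δ : Derivation QB ℂ ℂ} (hΔ : ∀ (n : ℕ) (x : ℂ) (c : Fin n → QB) (u : Fin n → ℂ),
    (∀ j, u j ≠ 0) → form x c u Δ = 0 → ∀ F : Derivation QB ℂ ℂ, form x c u F = 0) {N : ℕ}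
    (x : Fin N → ℂ) (hx : LinearIndependent ℚ x) (c : Fin N → QB)
    (h1 : ∑ j, c j • x j = 0) (h2 : ∑ j, c j • psi Δ (x j) = 0) : c = 0 := by
  classical
  -- the relation for all derivations
  have h3 : ∀ D : Derivation ℚ ℂ ℂ, (∀ w ∈ QB, D w = 0) →
      ∑ j, (c j : ℂ) * (D (cexp (x j)) / cexp (x j)) = 0 := by
    intro D hD
    obtain ⟨F, hF⟩ := exists_lift D hD
    have h4 := hΔ N 0 c (fun j => cexp (x j)) (fun j => Complex.exp_ne_zero _) (by
      unfold form
      rw [map_zero, zero_add, ← h2]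
      refine Finset.sum_congr rfl fun j _ => ?_
      rw [psi_div, Algebra.smul_def]
      rfl) F
    unfold form at h4
    rw [map_zero, zero_add] at h4
    simpa only [hF] using h4
  -- rational functionals
  have h5 : ∀ ψ : ℂ →ₗ[ℚ] ℚ, IsAlgebraic ℚ (cexp (∑ j, (ψ (c j) : ℂ) * x j)) := by
    intro ψ
    apply algebraic_of_psi
    intro F
    have h6 := Pool.Agent.TH813.Ros.rational QB (fun j => (c j : ℂ)) (fun j => cexp (x j))
      (fun j => (c j).2) (fun j => Complex.exp_ne_zero _) h3 ψ (F.restrictScalars ℚ)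
      (fun w hw => F.map_algebraMap (⟨w, hw⟩ : QB))
    have h7 : ∑ j, (ψ (c j) : ℂ) * psi F (x j) = 0 := by
      rw [← h6]
      refine Finset.sum_congr rfl fun j _ => ?_
      rw [← psi_div]
      rfl
    have h8 := psi_comb F 0 x (fun j => ψ (c j))
    rw [map_zero, zero_add, zero_add, h7] at h8
    exact h8
  -- a basis of the rational space of the coefficients
  let V : Submodule ℚ ℂ := Submodule.span ℚ (Set.range fun j => (c j : ℂ))
  have hVf : Module.Finite ℚ V := FiniteDimensional.span_of_finite ℚ (Set.finite_range _)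
  let bs := Module.finBasis ℚ V
  let s := Module.finrank ℚ V
  have hext : ∀ k : Fin s, ∃ ψ : ℂ →ₗ[ℚ] ℚ, ψ.comp V.subtype = bs.coord k := fun k =>
    LinearMap.exists_extend (bs.coord k)
  choose ψ hψ using hext
  have hcV : ∀ j, (c j : ℂ) ∈ V := fun j => Submodule.subset_span ⟨j, rfl⟩
  have hψc : ∀ k j, ψ k (c j) = bs.repr ⟨(c j : ℂ), hcV j⟩ k := by
    intro k j
    have h6 := LinearMap.congr_fun (hψ k) ⟨(c j : ℂ), hcV j⟩
    exact h6
  have hcj : ∀ j, (c j : ℂ) = ∑ k, (ψ k (c j) : ℂ) * (bs k : ℂ) := by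
    intro j
    have h6 := bs.sum_repr ⟨(c j : ℂ), hcV j⟩
    have h7 := congrArg (Submodule.subtype V) h6
    rw [map_sum] at h7
    simp only [map_smul, Submodule.subtype_apply] at h7
    refine h7.symm.trans (Finset.sum_congr rfl fun k _ => ?_)
    rw [hψc, Rat.smul_def]
  let w : Fin s → ℂ := fun k => ∑ j, (ψ k (c j) : ℂ) * x j
  have hw : LinearIndependent ℚ w := by
    rw [Fintype.linearIndependent_iff]
    intro r hr
    have h6 : ∀ j, ∑ k, r k * ψ k (c j) = 0 := by
      have h7 : ∑ j, (∑ k, r k * ψ k (c j)) • x j = 0 := by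
        rw [← hr]
        simp only [w, Finset.sum_smul, Finset.smul_sum]
        rw [Finset.sum_comm]
        refine Finset.sum_congr rfl fun k _ => Finset.sum_congr rfl fun j _ => ?_
        rw [Rat.smul_def, Rat.smul_def]
        push_cast
        ring
      exact Fintype.linearIndependent_iff.1 hx _ h7
    have h7 : (∑ k, r k • bs.coord k : V →ₗ[ℚ] ℚ) = 0 := by
      have h8 : ∀ v : V, (∑ k, r k • bs.coord k : V →ₗ[ℚ] ℚ) v = 0 := by
        rintro ⟨v, hv⟩
        induction hv using Submodule.span_induction with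
        | mem v hv =>
          obtain ⟨j, rfl⟩ := hv
          rw [LinearMap.sum_apply, ← h6 j]
          refine Finset.sum_congr rfl fun k _ => ?_
          rw [LinearMap.smul_apply, smul_eq_mul, hψc]
          rfl
        | zero =>
          exact map_zero _
        | add a b ha hb iha ihb =>
          have := map_add (∑ k, r k • bs.coord k : V →ₗ[ℚ] ℚ) ⟨a, ha⟩ ⟨b, hb⟩
          rw [iha, ihb, add_zero] at this
          exact this
        | smul q a ha iha =>
          have := map_smul (∑ k, r k • bs.coord k : V →ₗ[ℚ] ℚ) q ⟨a, ha⟩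
          rw [iha, smul_zero] at this
          exact this
      exact LinearMap.ext h8
    intro i
    have h8 := LinearMap.congr_fun h7 (bs i)
    rw [LinearMap.sum_apply, Finset.sum_eq_single i] at h8
    · simpa using h8
    · intro k _ hk
      rw [LinearMap.smul_apply, Basis.coord_apply, Basis.repr_self, Finsupp.single_eq_of_ne hk,
        smul_zero]
    · intro h; exact absurd (Finset.mem_univ _) h
  -- the theorem of Baker
  have hbQ : ∀ k, IsAlgebraic ℚ ((bs k : V) : ℂ) := by
    intro k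
    have h6 : V ≤ Subalgebra.toSubmodule QB.toSubalgebra := by
      rw [Submodule.span_le]
      rintro _ ⟨j, rfl⟩
      exact (c j).2
    exact mem_algebraicClosure_iff.1 (h6 (bs k).2)
  have hrel : ∑ k, ((bs k : V) : ℂ) * w k = 0 := by
    rw [← h1]
    simp only [w, Finset.mul_sum]
    rw [Finset.sum_comm]
    refine Finset.sum_congr rfl fun j _ => ?_
    rw [Algebra.smul_def]
    have h6 : algebraMap QB ℂ (c j) = (c j : ℂ) := rfl
    rw [h6]
    conv_rhs => rw [hcj j]
    rw [Finset.sum_mul]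
    exact Finset.sum_congr rfl fun k _ => by ring
  have hb0 := Pool.Agent.H297R2.baker w (fun k => h5 (ψ k)) hw (fun k => ((bs k : V) : ℂ)) hbQ hrel
  funext j
  apply Subtype.ext
  have h6 : (c j : ℂ) = 0 := by
    rw [hcj j]
    refine Finset.sum_eq_zero fun k _ => ?_
    rw [hb0 k, mul_zero]
  exact h6

/-- Reindexing the parameters. -/
theorem good1_append {κ C : Type} [Field κ] [Field C] [Algebra κ C] {g L : ℕ} {t : Fin g → C}
    (u : Fin 0 → C) {y : C} (h : Good1 κ (Fin.append u t) L y) : Good1 κ t L y := by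
  classical
  intro G hG
  apply h G
  refine hG.subst _ (fun _ => 1) (fun j j' => if j' = Option.map (Fin.natAdd 0) j then 1 else 0) ?_
  intro j
  rw [one_smul]
  simp only [pow_ite, pow_one, pow_zero, Finset.prod_ite_eq', Finset.mem_univ, if_true]
  rcases j with _ | o
  · rfl
  · unfold bt1
    simp only [Option.map_some, Option.elim_some]
    rw [Fin.append_right]

theorem exists_lam (R : ℕ) : ∃ lam : Fin R → ℂ, LinearIndependent QB lam := by
  obtain ⟨B, hB⟩ := exists_isTranscendenceBasis QB ℂ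
  have hBinf : Infinite B := by
    by_contra hfin
    rw [not_infinite_iff_finite] at hfin
    refine Pool.Agent.Zk44.GE.not_alg_countable B (Set.toFinite B).countable ?_
    have h4 := hB.isAlgebraic
    rwa [Subtype.range_coe] at h4
  exact ⟨fun i => ((Infinite.natEmbedding B (i : ℕ) : B) : ℂ),
    hB.1.linearIndependent.comp _ ((Infinite.natEmbedding B).injective.comp Fin.val_injective)⟩

/-- **One row.** -/
theorem row (g L : ℕ) : ∃ c : ℕ, ∀ N : ℕ, ∃ B₀ : ℕ, ∀ (t : Fin g → ℂ) (x : Fin N → ℂ),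
    LinearIndependent ℚ x → ∀ (ζ : ℂ) (A : Finset ℚ), A.Nonempty →
    ∀ B : Finset (Fin N → ℚ), (∀ b ∈ B, ∀ k, b k ∈ A) →
    (∀ b ∈ B, ¬ Good1 QB t L (ζ + ∑ k, (b k : ℂ) * x k) ∧
      ¬ Good1 QB t L (cexp (ζ + ∑ k, (b k : ℂ) * x k))) →
    B.card ≤ B₀ * A.card ^ c := by
  classical
  have hac : IsAlgClosure ℚ QB := algebraicClosure.isAlgClosure ℚ ℂ
  have hacl : IsAlgClosed QB := IsAlgClosure.isAlgClosed ℚ
  have hcnt : Countable QB := Pool.Agent.Zk44.GE.countable_QB
  have hunc : Uncountable ℂ := not_countable_iff.1 (fun h => not_countable_complex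
    (Set.countable_univ_iff.2 h))
  obtain ⟨Δ, hΔ⟩ := exists_shift
  have hconst := const_of hΔ
  obtain ⟨n, d, R, H⟩ := bad_ode2 0 g L
  obtain ⟨lam, hlam⟩ := exists_lam R
  refine ⟨4 * n, fun N => ?_⟩
  obtain ⟨B₀, hB₀⟩ := count_joint n N (d + d)
  refine ⟨B₀, fun t x hx ζ A hA B hBA hB => ?_⟩
  obtain ⟨F, G, hF0, hG0, hF, hG, hFd, hGd, hFbad, hGbad⟩ := H QB ℂ Δ hconst t lam hlam
  -- the points as points over `ℚ̄`
  let ι : (Fin N → ℚ) → (Fin N → QB) := fun b k => algebraMap ℚ QB (b k)
  have hι : Function.Injective ι := by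
    intro b b' h
    funext k
    exact (algebraMap ℚ QB).injective (congrFun h k)
  have hcast : ∀ q : ℚ, ((algebraMap ℚ QB q : QB) : ℂ) = (q : ℂ) := by
    intro q
    simp
  have hcb : ∀ (u : Fin N → ℂ) (z : ℂ) (b : Fin N → ℚ), cb u z (ι b) = z + ∑ k, (b k : ℂ) * u k := by
    intro u z b
    unfold cb
    refine congrArg (fun s => z + s) (Finset.sum_congr rfl fun k _ => ?_)
    rw [Algebra.smul_def]
    have h6 : algebraMap QB ℂ (ι b k) = ((algebraMap ℚ QB (b k) : QB) : ℂ) := rfl
    rw [h6, hcast]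
  have h := hB₀ QB ℂ Δ hconst x (fun j => psi Δ (x j)) (fun c h1 h2 => joint_indep hΔ x hx c h1 h2)
    ζ (psi Δ ζ) (A.image (algebraMap ℚ QB)) (hA.image _) (B.image ι) (by
      intro b hb k
      obtain ⟨b', hb', rfl⟩ := Finset.mem_image.1 hb
      exact Finset.mem_image_of_mem _ (hBA b' hb' k)) F G hF0 hG0 hF hG (Nat.add_le_add hFd hGd)
    (by
      intro b hb
      obtain ⟨b', hb', rfl⟩ := Finset.mem_image.1 hb
      rw [hcb]
      refine hFbad _ fun hgood => (hB b' hb').1 ?_
      exact good1_append (fun i => i.elim0) (hgood (fun i => i.elim0) (fun i => i.elim0)))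
    (by
      intro b hb
      obtain ⟨b', hb', rfl⟩ := Finset.mem_image.1 hb
      rw [hcb]
      refine hGbad (cexp (ζ + ∑ k, (b' k : ℂ) * x k)) _ (Complex.exp_ne_zero _) ?_
        fun hgood => (hB b' hb').2 ?_
      · rw [der_exp, psi_comb]
      · exact good1_append (fun i => i.elim0) (hgood (fun i => i.elim0) (fun i => i.elim0)))
  rw [Finset.card_image_of_injective _ hι, Finset.card_image_of_injective _
    (algebraMap ℚ QB).injective] at h
  exact h

end Pool.Agent.Zk44.SC
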