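import Mathlib
import Pool.Agent.Zk44.SC.Row

/-!
# Several rows: the dimension of the set of bad matrices
-/

set_option autoImplicit false

namespace Pool.Agent.Zk44.SC

open Module Finset Pool.Agent.R351 Complex
open Pool.Agent.H351R3.Gel (QB)

/-- the number or its exponential -/
noncomputable def val (e : Bool) (z : ℂ) : ℂ := if e = true then cexp z else z

open Classical in
/-- **Several rows.** -/
theorem rows (L m : ℕ) : ∀ g : ℕ, ∃ c : ℕ, ∀ N : ℕ, ∃ B₀ : ℕ, ∀ (t : Fin g → ℂ)
    (x : Fin m → Fin N → ℂ), (∀ j, LinearIndependent ℚ (x j)) → ∀ (ζ : Fin m → ℂ)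
    (A : Finset ℚ), A.Nonempty →
    ((Fintype.piFinset fun _ : Fin m => Fintype.piFinset fun _ : Fin N => A).filter
      (fun P : Fin m → Fin N → ℚ => ∀ e : Fin m → Bool, ¬ GoodT QB t L
        (fun j => val (e j) (ζ j + ∑ i : Fin N, (P j i : ℂ) * x j i)))).card * A.card ^ N ≤
      B₀ * A.card ^ (m * N + c) := by
  have hinf : Infinite QB := by
    have hac : IsAlgClosure ℚ QB := algebraicClosure.isAlgClosure ℚ ℂ
    have hacl : IsAlgClosed QB := IsAlgClosure.isAlgClosed ℚ
    exact IsAlgClosed.instInfinite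
  induction m with
  | zero =>
    intro g
    refine ⟨0, fun N => ⟨0, fun t x _ ζ A _ => ?_⟩⟩
    rw [Finset.filter_false_of_mem]
    · simp
    · rintro P _ hT
      exact hT (fun j => true) (goodT_zero _ _)
  | succ m ih =>
    intro g
    obtain ⟨c₁, h₁⟩ := row g L
    obtain ⟨c₂, h₂⟩ := ih (g + 1)
    refine ⟨c₁ + c₂, fun N => ?_⟩
    obtain ⟨B₁, h₁⟩ := h₁ N
    obtain ⟨B₂, h₂⟩ := h₂ N
    refine ⟨B₁ + B₂, fun t x hx ζ A hA => ?_⟩
    set a : ℕ := A.card with ha
    have ha1 : 1 ≤ a := hA.card_pos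
    set XA : Finset (Fin N → ℚ) := Fintype.piFinset fun _ => A with hXA
    have hXAc : XA.card = a ^ N := by rw [hXA, Fintype.card_piFinset_const]
    set Yn : Finset (Fin m → Fin N → ℚ) := Fintype.piFinset fun _ => XA with hYn
    have hYc : Yn.card = a ^ (m * N) := by
      rw [hYn, Fintype.card_piFinset_const, hXAc, ← pow_mul, mul_comm]
    let ev : (Fin N → ℚ) → ℂ := fun p => ζ 0 + ∑ i : Fin N, (p i : ℂ) * x 0 i
    set H : Finset (Fin N → ℚ) := XA.filter (fun p =>
      ¬ Good1 QB t L (ev p) ∧ ¬ Good1 QB t L (cexp (ev p))) with hH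
    set B := ((Fintype.piFinset fun _ : Fin (m + 1) => XA).filter
      (fun P : Fin (m + 1) → Fin N → ℚ => ∀ e : Fin (m + 1) → Bool, ¬ GoodT QB t L
        (fun j => val (e j) (ζ j + ∑ i : Fin N, (P j i : ℂ) * x j i)))) with hB
    have hHc : H.card ≤ B₁ * a ^ c₁ :=
      h₁ t (x 0) (hx 0) (ζ 0) A hA H
        (fun b hb k => Fintype.mem_piFinset.1 (Finset.mem_filter.1 hb).1 k)
        (fun b hb => (Finset.mem_filter.1 hb).2)
    have hfib : B.card = ∑ p ∈ XA, (B.filter (fun P => P 0 = p)).card := by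
      apply Finset.card_eq_sum_card_fiberwise
      intro P hP
      exact Fintype.mem_piFinset.1 (Finset.mem_filter.1 hP).1 0
    have hinj : ∀ p, Set.InjOn (fun P : Fin (m + 1) → Fin N → ℚ => Fin.tail P)
        (B.filter (fun P => P 0 = p)) := by
      intro p P hP P' hP' hPP
      rw [Finset.mem_coe, Finset.mem_filter] at hP hP'
      rw [← Fin.cons_self_tail P, ← Fin.cons_self_tail P', hP.2, hP'.2]
      exact congrArg _ hPP
    have hall : ∀ p ∈ XA, (B.filter (fun P => P 0 = p)).card ≤ a ^ (m * N) := by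
      intro p _
      rw [← hYc]
      refine Finset.card_le_card_of_injOn (fun P => Fin.tail P) ?_ (hinj p)
      intro P hP
      rw [Finset.mem_coe, Finset.mem_filter, hB, Finset.mem_filter] at hP
      have h3 := Fintype.mem_piFinset.1 hP.1.1
      exact Fintype.mem_piFinset.2 (fun j => h3 j.succ)
    have hgood : ∀ p ∈ XA, p ∉ H → (B.filter (fun P => P 0 = p)).card * a ^ N ≤
        B₂ * a ^ (m * N + c₂) := by
      intro p hp hpH
      obtain ⟨e₀, h₀⟩ : ∃ e₀ : Bool, Good1 QB t L (val e₀ (ev p)) := by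
        by_contra hcon
        push Not at hcon
        refine hpH (Finset.mem_filter.2 ⟨hp, ?_, ?_⟩)
        · exact hcon false
        · exact hcon true
      have h3 := h₂ (Fin.cons (val e₀ (ev p)) t : Fin (g + 1) → ℂ) (fun j => x j.succ)
        (fun j => hx j.succ) (fun j => ζ j.succ) A hA
      refine le_trans (Nat.mul_le_mul_right _ ?_) h3
      refine Finset.card_le_card_of_injOn (fun P => Fin.tail P) ?_ (hinj p)
      intro P hP
      rw [Finset.mem_coe, Finset.mem_filter, hB, Finset.mem_filter] at hP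
      obtain ⟨⟨hPA, hTi⟩, hP0⟩ := hP
      have h6 := Fintype.mem_piFinset.1 hPA
      rw [Finset.mem_coe, Finset.mem_filter]
      refine ⟨Fintype.mem_piFinset.2 (fun j => h6 j.succ), ?_⟩
      intro e h7
      apply hTi (Fin.cons e₀ e)
      have h2 := goodT_cons h₀ h7
      have h3 : (fun j => val ((Fin.cons e₀ e : Fin (m + 1) → Bool) j)
          (ζ j + ∑ i : Fin N, (P j i : ℂ) * x j i)) =
          (Fin.cons (val e₀ (ev p)) (fun j : Fin m => val (e j) (ζ j.succ +
            ∑ i : Fin N, ((Fin.tail P) j i : ℂ) * x j.succ i)) : Fin (m + 1) → ℂ) := by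
        funext j
        refine Fin.cases ?_ (fun j => ?_) j
        · rw [Fin.cons_zero, Fin.cons_zero, ← hP0]
        · rw [Fin.cons_succ, Fin.cons_succ]
          rfl
      rw [h3]
      exact h2
    have htot : B.card * a ^ N ≤ B₁ * a ^ c₁ * (a ^ (m * N) * a ^ N) +
        a ^ N * (B₂ * a ^ (m * N + c₂)) := by
      rw [hfib, Finset.sum_mul, ← Finset.sum_filter_add_sum_filter_not XA (fun p => p ∈ H)]
      apply Nat.add_le_add
      · refine (Finset.sum_le_sum (fun p hp => Nat.mul_le_mul_right _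
          (hall p (Finset.mem_filter.1 hp).1))).trans ?_
        rw [Finset.sum_const, smul_eq_mul]
        refine Nat.mul_le_mul_right _ (le_trans (Finset.card_le_card ?_) hHc)
        intro p hp
        exact (Finset.mem_filter.1 hp).2
      · refine (Finset.sum_le_sum (fun p hp => hgood p (Finset.mem_filter.1 hp).1
          (Finset.mem_filter.1 hp).2)).trans ?_
        rw [Finset.sum_const, smul_eq_mul, ← hXAc]
        exact Nat.mul_le_mul_right _ (Finset.card_le_card (Finset.filter_subset _ _))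
    refine htot.trans ?_
    have e1 : B₁ * a ^ c₁ * (a ^ (m * N) * a ^ N) = B₁ * a ^ ((m + 1) * N + c₁) := by
      rw [mul_assoc, ← pow_add, ← pow_add]
      congr 2
      ring
    have e2 : a ^ N * (B₂ * a ^ (m * N + c₂)) = B₂ * a ^ ((m + 1) * N + c₂) := by
      have : a ^ ((m + 1) * N + c₂) = a ^ N * a ^ (m * N + c₂) := by
        rw [← pow_add]
        congr 1
        ring
      rw [this]
      ring
    rw [e1, e2, Nat.add_mul B₁ B₂]
    have k1 : a ^ ((m + 1) * N + c₁) ≤ a ^ ((m + 1) * N + (c₁ + c₂)) :=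
      Nat.pow_le_pow_right ha1 (Nat.add_le_add_left (Nat.le_add_right _ _) _)
    have k2 : a ^ ((m + 1) * N + c₂) ≤ a ^ ((m + 1) * N + (c₁ + c₂)) :=
      Nat.pow_le_pow_right ha1 (Nat.add_le_add_left (Nat.le_add_left _ _) _)
    exact Nat.add_le_add (Nat.mul_le_mul_left _ k1) (Nat.mul_le_mul_left _ k2)

end Pool.Agent.Zk44.SC
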